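import Pool.Agent.Lib.DU.IfaceC
import Pool.Agent.Lib.DM.G.ChT

/-!
# Theorem DU (`3` ramified), part G: `S_G` from `S_O4`, `S_LS`, `S_V`, `S_F`, `S_Lw` (author helper21)
-/

set_option autoImplicit false

open scoped Pointwise

noncomputable section

namespace Pool.Agent.DM.DU

open Pool.Agent.MuZ Pool.Agent.FW Pool.Agent.DN
open Pool.Agent.DI (io ofC io_inj exists_io io_ofC ofC_io VP MP UP TP ex)
open Pool.Agent.DT (kap cbr)
open Pool.Agent.DM.G (chi_top chi_pow chi_vp chi_oN oN_mul oN_sq oN_ray)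

variable {n t : ℕ}

/-- The type, as an equality: `χ((v)) = zs(v)^j`. -/
def TyS (f : ℕ) (χ : Ideal (OO n t) → Om) (j : ℕ) : Prop :=
  ∀ v : OO n t, (f : OO n t) ∣ v - 1 → Cop v 3 → χ (sp v) = (zs v : Om) ^ j

/-- `toO x` is in the maximal ideal for `x` in `pp`. -/
theorem toO_pp [Ram3 n t] (o4 : S_O4) {P : Ideal ZZ} (hP : Ab3 P) {x : OO n t}
    (hx : x ∈ pp n t) : MP P (toO x) := by
  have : P.IsPrime := hP.1.1
  obtain ⟨-, -, o3, -⟩ := o4 n t
  have h1 : x * x ∈ sp (3 : OO n t) := by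
    rw [← o3]
    exact Ideal.mul_mem_mul hx hx
  obtain ⟨y, hy⟩ := Ideal.mem_span_singleton.1 h1
  have h2 : MP P (toO x ^ 2) := by
    have e : toO x ^ 2 = 3 * toO y := by
      rw [pow_two, ← toO_mul, hy, toO_mul]
      have h3 : toO (3 : OO n t) = 3 := by
        have := toO_nat (n := n) (t := t) 3
        push_cast at this
        exact this
      rw [h3]
    rw [e]
    exact DI.MP.mul_right hP.2 (toO_VP y)
  exact DI.MP.of_pow h2

theorem tyS_ty [Ram3 n t] (o4 : S_O4) {P : Ideal ZZ} (hP : Ab3 P) {f : ℕ} {χ : Ideal (OO n t) → Om}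
    {j : ℕ} (hj : j = 0 ∨ j = 1) (h : TyS f χ j) : Ty P f χ j := by
  have : P.IsPrime := hP.1.1
  intro v hv hc
  rw [h v hv hc]
  rcases hj with rfl | rfl
  · rw [pow_zero, pow_zero, sub_self]
    exact DI.MP.zero
  · rw [pow_one, pow_one]
    obtain ⟨-, -, -, -, -, -, -, -, -, -, -, o12, -⟩ := o4 n t
    have h1 := toO_pp o4 hP (o12 v)
    rw [toO_sub, toO_int] at h1
    have h2 := h1.neg
    rwa [neg_sub] at h2

/-- The cube of an element of `1 + pp`. -/
private theorem SG_cube [Ram3 n t] (o4 : S_O4) {v : OO n t} (h : v - 1 ∈ pp n t) :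
    (3 : OO n t) ∣ v ^ 3 - 1 := by
  obtain ⟨-, -, o3, -⟩ := o4 n t
  have h1 : (v - 1) * (v - 1) ∈ sp (3 : OO n t) := by
    rw [← o3]
    exact Ideal.mul_mem_mul h h
  obtain ⟨y, hy⟩ := Ideal.mem_span_singleton.1 h1
  refine ⟨(v - 1) + 3 * y + (v - 1) * y, ?_⟩
  linear_combination (3 + (v - 1)) * hy

/-- **Every character has a type `0` or `1`.** -/
theorem chS [Ram3 n t] (o4 : S_O4) {f : ℕ} (hf : Fok f) {χ : Ideal (OO n t) → Om}
    (hχ : IsChi (3 * f) χ) : ∃ j : ℕ, (j = 0 ∨ j = 1) ∧ TyS f χ j := by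
  have h3f : 0 < 3 * f := by have := hf.pos; omega
  obtain ⟨-, -, -, -, -, -, -, -, c9, -, -, z1, z2, z3, z4, z5, -⟩ := o4 n t
  have hcomb : ∀ x : OO n t, (f : OO n t) ∣ x → (3 : OO n t) ∣ x → ((3 * f : ℕ) : OO n t) ∣ x := by
    intro x h1 h2
    rw [nat_dvd_iff]
    have h1' := (nat_dvd_iff f x).1 h1
    have h2' := (nat_dvd_iff 3 x).1 (by exact_mod_cast h2)
    have hc : IsCoprime ((3 : ℕ) : ℤ) (f : ℤ) := (Nat.isCoprime_iff_coprime.2 hf.cop).symm
    push_cast at h1' h2' hc ⊢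
    exact ⟨hc.mul_dvd h2'.1 h1'.1, hc.mul_dvd h2'.2 h1'.2⟩
  have hcop3f : ∀ v : OO n t, (f : OO n t) ∣ v - 1 → Cop v 3 → Cop v (3 * f) := by
    intro v h1 h2
    rw [(DS.G.aCop n t).2.1]
    refine ⟨h2, ?_⟩
    refine cop_congr (a := 1) ?_ (cop_one f)
    rw [← neg_sub]
    exact (dvd_neg).2 h1
  have hne : ∀ v : OO n t, Cop v 3 → v ≠ 0 := by
    rintro v h rfl
    unfold Cop at h
    rw [Nm_zero, isCoprime_zero_left, Int.isUnit_iff] at h
    norm_num at h
  -- the value is `1` if `v = 1` modulo `pp`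
  have hone : ∀ v : OO n t, (f : OO n t) ∣ v - 1 → Cop v 3 → zs v = 1 → χ (sp v) = 1 := by
    intro v h1 h2 h3
    have h4 : v - 1 ∈ pp n t := by
      have := z1 v
      rw [h3] at this
      simpa using this
    have h5 := SG_cube o4 h4
    have h6 : (f : OO n t) ∣ v ^ 3 - 1 := by
      have := sub_dvd_pow_sub_pow v 1 3
      rw [one_pow] at this
      exact h1.trans this
    have h7 := hcomb _ h6 h5
    have hc3 : Cop (v ^ 3) (3 * f) := by
      refine cop_congr (a := 1) ?_ (cop_one _)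
      rw [← neg_sub]
      exact (dvd_neg).2 h7
    have h8 : χ (sp (v ^ 3)) = 1 := by
      rw [← chi_top h3f hχ]
      refine hχ.ray _ _ (fun h => hne v h2 ?_) ?_ (((aO6 n t).2.2.2.1 _ _ h3f).2 hc3) ?_ ?_
      · have h9 := Ideal.span_singleton_eq_bot.1 h
        exact pow_eq_zero_iff (by norm_num) |>.1 h9
      · intro h0
        have h4 : (1 : OO n t) ∈ (⊥ : Ideal (OO n t)) := by
          rw [← h0]
          exact Submodule.mem_top
        exact one_ne_zero (Ideal.mem_bot.1 h4)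
      · unfold PrI
        exact top_sup_eq _
      · rw [← show sp (1 : OO n t) = ⊤ from Ideal.span_singleton_one]
        refine ((aO7 n t (3 * f) h3f).2.2.2.2.2.2.2.1 _ 1 (pow_ne_zero 3 (hne v h2)) one_ne_zero hc3
          (cop_one _)).2 ⟨1, Nm_one, ?_⟩
        rw [one_mul]
        exact h7
    rw [chi_pow h3f hχ] at h8
    obtain ⟨m, hm, hm2⟩ := hχ.cop
    have h9 := hm2 (sp v) (fun h => hne v h2 (Ideal.span_singleton_eq_bot.1 h))
      (((aO6 n t).2.2.2.1 _ _ h3f).2 (hcop3f v h1 h2))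
    have h10 : orderOf (χ (sp v)) ∣ Nat.gcd 3 m :=
      Nat.dvd_gcd (orderOf_dvd_of_pow_eq_one h8) (orderOf_dvd_of_pow_eq_one h9)
    rw [Nat.Coprime.gcd_eq_one hm.symm, Nat.dvd_one, orderOf_eq_one_iff] at h10
    exact h10
  -- an element with `zs = -1`
  obtain ⟨v0, hv1, hv2⟩ : ∃ v0 : OO n t, (f : OO n t) ∣ v0 - 1 ∧ (3 : OO n t) ∣ v0 - (-1) := by
    obtain ⟨x, y, hxy⟩ : IsCoprime (f : ℤ) (3 : ℤ) := by
      exact_mod_cast Nat.isCoprime_iff_coprime.2 hf.cop
    have hxy' : (x : OO n t) * (f : OO n t) + (y : OO n t) * 3 = 1 := by exact_mod_cast hxy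
    refine ⟨1 + (f : OO n t) * ((x : OO n t) * (-1 - 1)), ⟨(x : OO n t) * (-1 - 1), by ring⟩,
      ⟨-((y : OO n t) * (-1 - 1)), ?_⟩⟩
    linear_combination (-1 - 1 : OO n t) * hxy'
  have h3pp : (3 : OO n t) ∈ pp n t := Ideal.subset_span (by simp)
  have hz0 : zs v0 = -1 := by
    have h1 : v0 - (-1) ∈ pp n t := Ideal.mem_of_dvd _ hv2 h3pp
    have h2 := z5 _ _ h1
    have h3 : zs (-1 : OO n t) = -1 := by
      rcases z3 (-1 : OO n t) with h | h | h
      · exfalso
        have h4 := z1 (-1 : OO n t)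
        rw [h] at h4
        have h5 : (2 : OO n t) ∈ pp n t := by
          have h6 := (pp n t).neg_mem h4
          have e : -((-1 : OO n t) - ((1 : ℤ) : OO n t)) = 2 := by push_cast; ring
          rwa [e] at h6
        have h6 : (1 : OO n t) ∈ pp n t := by
          have h7 := (pp n t).sub_mem h3pp h5
          have e : (3 : OO n t) - 2 = 1 := by ring
          rwa [e] at h7
        exact (o4 n t).1.ne_top ((Ideal.eq_top_iff_one _).2 h6)
      · exact h
      · exfalso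
        have h4 := (z2 _).1 h
        have h6 := (pp n t).neg_mem h4
        rw [neg_neg] at h6
        exact (o4 n t).1.ne_top ((Ideal.eq_top_iff_one _).2 h6)
    rw [h2, h3]
  have hc0 : Cop v0 3 := by
    rw [c9]
    intro h
    have := (z2 v0).2 h
    rw [hz0] at this
    norm_num at this
  have hsq : χ (sp v0) * χ (sp v0) = 1 := by
    rw [← hχ.mul, show sp v0 * sp v0 = sp (v0 * v0) from Ideal.span_singleton_mul_span_singleton _ _]
    refine hone _ ?_ (cop_mul hc0 hc0) (by rw [z4, hz0]; norm_num)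
    have e : v0 * v0 - 1 = (v0 - 1) * (v0 + 1) := by ring
    rw [e]
    exact hv1.mul_right _
  have hval : ∀ v : OO n t, (f : OO n t) ∣ v - 1 → Cop v 3 → zs v = -1 → χ (sp v) = χ (sp v0) := by
    intro v h1 h2 h3
    have h4 : χ (sp v) * χ (sp v0) = 1 := by
      rw [← hχ.mul, show sp v * sp v0 = sp (v * v0) from Ideal.span_singleton_mul_span_singleton _ _]
      refine hone _ ?_ (cop_mul h2 hc0) (by rw [z4, h3, hz0]; norm_num)
      have e : v * v0 - 1 = (v - 1) * v0 + (v0 - 1) := by ring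
      rw [e]
      exact dvd_add (h1.mul_right _) hv1
    linear_combination χ (sp v0) * h4 - χ (sp v) * hsq
  have hcase : ∀ v : OO n t, Cop v 3 → zs v = 1 ∨ zs v = -1 := by
    intro v h
    rcases z3 v with h1 | h1 | h1
    · exact Or.inl h1
    · exact Or.inr h1
    · exact absurd ((z2 v).1 h1) ((c9 v).1 h)
  have hpm : χ (sp v0) = 1 ∨ χ (sp v0) = -1 := by
    have h1 : (χ (sp v0) - 1) * (χ (sp v0) + 1) = 0 := by linear_combination hsq
    rcases mul_eq_zero.1 h1 with h | h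
    · left; linear_combination h
    · right; linear_combination h
  rcases hpm with hpm | hpm
  · refine ⟨0, Or.inl rfl, fun v h1 h2 => ?_⟩
    rw [pow_zero]
    rcases hcase v h2 with h | h
    · exact hone v h1 h2 h
    · rw [hval v h1 h2 h, hpm]
  · refine ⟨1, Or.inr rfl, fun v h1 h2 => ?_⟩
    rw [pow_one]
    rcases hcase v h2 with h | h
    · rw [hone v h1 h2 h, h]
      norm_num
    · rw [hval v h1 h2 h, hpm, h]
      norm_num

/-- The characters `χ oN^e`. -/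
theorem chi_tw [Ram3 n t] {f : ℕ} (hf : 0 < f) {χ : Ideal (OO n t) → Om} (h : IsChi (3 * f) χ)
    {e : ℕ} (he : e = 0 ∨ e = 1) : IsChi (3 * f) (tw e χ) := by
  rcases he with rfl | rfl
  · have e1 : tw 0 χ = χ := by
      funext b
      unfold tw
      rw [pow_zero, mul_one]
    rw [e1]
    exact h
  · have e1 : tw 1 χ = fun b => χ b * oN b := by
      funext b
      unfold tw
      rw [pow_one]
    rw [e1]
    exact chi_oN hf h

/-- `oN = 1` on the principal ideals prime to `3`. -/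
theorem oN_spR [Ram3 n t] (o4 : S_O4) {v : OO n t} (hc : Cop v 3) : oN (sp v) = 1 := by
  obtain ⟨-, -, -, -, -, -, -, -, -, -, o11, -⟩ := o4 n t
  have h1 : (NI (sp v) : ℤ) = Nm v := (aO2 n t).2.2.2.1 v
  have h2 := o11 v hc
  unfold oN
  rw [if_pos (by omega)]

/-- `xs` depends only on the values of `χ` on `R`. -/
theorem xs_congr {f k e : ℕ} {m : Ideal (OO n t)} {R : Finset (Ideal (OO n t))} {χ χ' : Ideal (OO n t) → Om}
    (h : ∀ b ∈ R, χ b = χ' b) (r : ℚ) : xs f k e m R χ r = xs f k e m R χ' r := by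
  have h1 : ∀ r : ℚ, xw f k m R χ r = xw f k m R χ' r := by
    intro r
    unfold xw
    congr 1
    exact Finset.sum_congr rfl (fun b hb => by rw [h b hb])
  unfold xs
  rw [h1, h1]

/-- `tw 1 χ` is not invariant under conjugation. -/
theorem ncj_tw [Ram3 n t] {N : ℕ} {χ : Ideal (OO n t) → Om} (hχ : IsChi (3 * N) χ) (h : Ncj χ) :
    Ncj (tw 1 χ) := by
  obtain ⟨b, hb⟩ := h
  refine ⟨b, fun h1 => hb ?_⟩
  have hN : NI (cjI b) = NI b := ((aO3 n t).2.2.1 b).2.1
  have e : oN (cjI b) = oN b := by unfold oN; rw [hN]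
  unfold tw at h1
  rw [e, pow_one] at h1
  have hne : oN b ≠ 0 := by
    have hpr : PrI b (3 * N) := by
      by_contra hc
      refine hb ?_
      rw [hχ.zero b (Or.inr hc), hχ.zero (cjI b) (Or.inr (fun h2 => hc (((aO3 n t).2.2.2.2.1 b _).1 h2)))]
    have h2 := oN_sq hpr
    intro h0
    rw [h0] at h2
    norm_num at h2
  exact mul_right_cancel₀ hne h1

/-- **Output of Part G** (ramified case). -/
theorem aSG (o4 : S_O4) (ls : S_LS) (vv : S_V) (sf : S_F) (lw : S_Lw) : S_G := by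
  intro n t _ f m χ P hM hmt hχ hnc hP
  have : P.IsPrime := hP.1.1
  have hf0 : 0 < f := hM.pos
  by_contra hcon
  push Not at hcon
  obtain ⟨⟨R, hR, hRb⟩, -, -⟩ := DS.G.aR2 n t f 3 hf0 (by norm_num)
  have hFR : FR f R := fun b hb => ⟨(hR.mem b hb).1, hRb b hb⟩
  obtain ⟨M, hMl⟩ := lw n t f m R hM hFR
  obtain ⟨j, hj, hty⟩ := chS o4 hM.toFok hχ
  have hk : j + 1 = 1 ∨ j + 1 = 2 := by omega
  have hty' : Ty P f χ (j + 1 - 1) := by
    rw [Nat.add_sub_cancel]
    exact tyS_ty o4 hP hj hty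
  have h1 : ∀ e : ℕ, (e = 0 ∨ e = 1) → (j + 1 = 1 → e = 1) → _ := fun e he he1 =>
    ls n t f (j + 1) e m R χ P hM hFR hR hχ hP hk he he1 hty' (fun N0 => by
    obtain ⟨N, a1, T, a2, D, a3, a4⟩ := hcon (max N0 2) (le_max_right _ _)
    exact ⟨N, (le_max_left _ _).trans a1, T, a2, D, a3, fun d hd => a4 d hd.stab hd.fix⟩)
  have hty2 : Ty P f (tw 1 χ) (j + 1 - 1) := by
    intro v hv hc
    unfold tw
    rw [oN_spR o4 hc, one_pow, mul_one]
    exact hty' v hv hc
  have hχ1 : IsChi (3 * f) (tw 1 χ) := chi_tw hf0 hχ (Or.inr rfl)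
  obtain ⟨a, b, c, d, hg, hd, hn⟩ := sf n t f M (j + 1) 1 m R hM hFR hR hMl hmt (tw 1 χ) hχ1
    (ncj_tw hχ hnc) P hP hk (Or.inr rfl) hty2
  refine hn ((vv n t f M (j + 1) 1 m R hM hFR hR hMl (tw 1 χ) hχ1 P hP hk (Or.inr rfl) hty2).2
    (h1 1 (Or.inr rfl) (fun _ => rfl)) (fun hk2 c j' => ?_) a b c d hg hd)
  have e : ∀ r : ℚ, xs f (j + 1) (1 - 1) m R (tw 1 (tw 1 χ)) r = xs f (j + 1) 0 m R (tw 0 χ) r := by
    intro r
    refine xs_congr (fun b hb => ?_) r
    have h2 : PrI b (3 * f) := (hFR b hb).prm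
    have h3 := oN_sq h2
    unfold tw
    rw [pow_one, pow_zero, mul_one, mul_assoc, ← pow_two, h3, mul_one]
  rw [e, e]
  exact h1 0 (Or.inl rfl) (fun h => absurd h (by omega)) c j'

end Pool.Agent.DM.DU
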